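import Pool.Agent.Helper97.BK.Three
import Pool.Agent.Helper97.CS.Final

/-!
# MP_fe7296_gt: closed invariant sets without backtracking points
-/

set_option autoImplicit false
open Set Filter Topology

namespace Pool.Agent.Helper97.BK

open Pool.Agent.Helper34.Plane

theorem abs_turn_lt {f : ℂ → ℂ} {z : ℂ} (h1 : f z - z ≠ 0) (h2 : f (f z) - f z ≠ 0)
    (hb : ¬ Back f z) : |turnAngle f z| < Real.pi := by
  have h3 := (Complex.mem_slitPlane_iff_arg.1 (slit h1 h2 hb)).1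
  have h4 := Complex.neg_pi_lt_arg ((f (f z) - f z) / (f z - z))
  have h5 := Complex.arg_le_pi ((f (f z) - f z) / (f z - z))
  exact abs_lt.2 ⟨h4, lt_of_le_of_ne h5 h3⟩

theorem nonconsecutive {X : Set ℂ} (hX : IsCompact X) {f : ℂ → ℂ} (cf : ContinuousOn f X)
    (hfX : MapsTo f X X) (h0 : ∀ z ∈ X, f z ≠ z) {Θ : ℂ → ℝ} (cΘ : ContinuousOn Θ X)
    (eΘ : ∀ z ∈ X, f z - z = ‖f z - z‖ * Complex.exp (Θ z * Complex.I))
    (h : ∀ z ∈ X, ¬ Back f z → turnAngle f z = Θ (f z) - Θ z) {M : Set ℂ} (hMX : M ⊆ X)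
    (hne : M.Nonempty) (hcl : IsClosed M) (hfM : MapsTo f M M) (hB : ∀ z ∈ M, ¬ Back f z) :
    ∃ z ∈ M, ∃ w ∈ M, w ≠ z ∧ w ≠ f z ∧ z ≠ f w ∧
      (segment ℝ z (f z) ∩ segment ℝ w (f w)).Nonempty := by
  obtain ⟨z, hz, w, hw, hm, hpi⟩ := Pool.Agent.Helper97.CS.crossing
    (hX.of_isClosed_subset hcl hMX) hne (cf.mono hMX) hfM (fun z hz => h0 z (hMX hz))
    (cΘ.mono hMX) (fun z hz => eΘ z (hMX hz))
  have hcons : ∀ a ∈ M, |Θ (f a) - Θ a| < Real.pi := by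
    intro a ha
    rw [← h a (hMX ha) (hB a ha)]
    exact abs_turn_lt (sub_ne_zero.2 (h0 a (hMX ha))) (sub_ne_zero.2 (h0 _ (hfX (hMX ha))))
      (hB a ha)
  refine ⟨z, hz, w, hw, ?_, ?_, ?_, hm⟩
  · rintro rfl
    rw [sub_self, abs_zero] at hpi
    exact absurd Real.pi_pos (not_lt.2 hpi)
  · rintro rfl
    have := hcons z hz
    rw [abs_sub_comm] at this
    linarith
  · rintro rfl
    have := hcons w hw
    linarith

/-- **Main theorem**, second version. -/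
theorem final2 {K X : Set ℂ} (hK : IsCompact K) (hc : IsPreconnected Kᶜ) (hX : IsCompact X)
    (hXc : IsConnected X) (hXK : X ⊆ K) {f : ℂ → ℂ} (hf : ContinuousOn f K) (hfX : MapsTo f X X)
    (h0 : ∀ z ∈ K, f z ≠ z) (hB : IsPreconnected {z | z ∈ X ∧ ¬ Back f z}) :
    (∃ C : ℝ, ∀ z ∈ X, ∀ n : ℕ, (∀ i < n, ¬ Back f (f^[i] z)) →
      |∑ i ∈ Finset.range n, turnAngle f (f^[i] z)| ≤ C ∧
      (f^[n] z = z → ∑ i ∈ Finset.range n, turnAngle f (f^[i] z) = 0)) ∧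
    (∀ z ∈ X, ∀ n : ℕ, 0 < n → f^[n] z = z → (∀ i < n, ¬ Back f (f^[i] z)) →
      (∃ i < n, 0 < turnAngle f (f^[i] z)) ∧ ∃ i < n, turnAngle f (f^[i] z) < 0) ∧
    (∀ M ⊆ X, M.Nonempty → IsClosed M → MapsTo f M M → (∀ z ∈ M, ¬ Back f z) →
      ∃ z ∈ M, ∃ w ∈ M, w ≠ z ∧ w ≠ f z ∧ z ≠ f w ∧
        (segment ℝ z (f z) ∩ segment ℝ w (f w)).Nonempty) ∧
    ∀ z ∈ X, f (f (f z)) = z → ((f (f z) - f z) / (f z - z)).im = 0 := by
  obtain ⟨h1, h2, h3⟩ := final hK hc hX hXc hXK hf hfX h0 hB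
  obtain ⟨Θ, cΘ, eΘ, hΘ⟩ := coboundary hK hc hX hXc hXK hf hfX h0 hB
  exact ⟨h1, h2, fun M hMX hne hcl hfM hMB => nonconsecutive hX (hf.mono hXK) hfX
    (fun z hz => h0 z (hXK hz)) cΘ eΘ hΘ hMX hne hcl hfM hMB, h3⟩

end Pool.Agent.Helper97.BK
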