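import Pool.Agent.Helper34.Plane.Main

/-!
# MP_fe7296_gt: turning of orbits of fixed point free maps
-/

set_option autoImplicit false
open Set Filter Topology

namespace Pool.Agent.Helper97.BK

open Pool.Agent.Helper34.Plane

/-- `z` is a backtracking point of `f`: `f (f z)` lies on the open ray from `f z` through `z`. -/
def Back (f : ℂ → ℂ) (z : ℂ) : Prop :=
  ∃ r : ℝ, 0 < r ∧ f (f z) - f z = r * (z - f z)

/-- The turning angle at `f z` of the path `z, f z, f (f z)`, in `(-π, π]`. -/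
noncomputable def turnAngle (f : ℂ → ℂ) (z : ℂ) : ℝ :=
  Complex.arg ((f (f z) - f z) / (f z - z))

theorem slit {f : ℂ → ℂ} {z : ℂ} (h1 : f z - z ≠ 0) (h2 : f (f z) - f z ≠ 0) (hb : ¬ Back f z) :
    (f (f z) - f z) / (f z - z) ∈ Complex.slitPlane := by
  rw [Complex.mem_slitPlane_iff_not_le_zero]
  intro hle
  apply hb
  obtain ⟨hre, him⟩ := Complex.le_def.1 hle
  set ρ : ℂ := (f (f z) - f z) / (f z - z) with hρ
  have hρ0 : ρ ≠ 0 := div_ne_zero h2 h1
  have him' : ρ.im = 0 := by simpa using him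
  have hre' : ρ.re ≤ 0 := by simpa using hre
  have hre0 : ρ.re ≠ 0 := by
    intro h
    exact hρ0 (Complex.ext (by simpa using h) (by simpa using him'))
  refine ⟨-ρ.re, by
    have : ρ.re < 0 := lt_of_le_of_ne hre' hre0
    linarith, ?_⟩
  have h3 : ρ = (ρ.re : ℂ) := Complex.ext (by simp) (by simp [him'])
  have h4 : f (f z) - f z = ρ * (f z - z) := by rw [hρ]; field_simp
  rw [h4]
  conv_lhs => rw [h3]
  push_cast
  ring

/-- the angle of the quotient of two vectors with given directions -/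
theorem arg_div {a b : ℂ} {s t : ℝ} (ha0 : a ≠ 0) (hb0 : b ≠ 0)
    (ha : a = ‖a‖ * Complex.exp (s * Complex.I))
    (hb : b = ‖b‖ * Complex.exp (t * Complex.I)) :
    ∃ k : ℤ, t - s = Complex.arg (b / a) + k * (2 * Real.pi) := by
  have hna : (‖a‖ : ℂ) ≠ 0 := by exact_mod_cast (norm_pos_iff.2 ha0).ne'
  have hnb : (‖b‖ : ℂ) ≠ 0 := by exact_mod_cast (norm_pos_iff.2 hb0).ne'
  have h1 : b / a = (‖b / a‖ : ℂ) * Complex.exp (Complex.arg (b / a) * Complex.I) :=
    (Complex.norm_mul_exp_arg_mul_I (b / a)).symm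
  have h2 : b / a = (‖b / a‖ : ℂ) * Complex.exp (((t - s : ℝ) : ℂ) * Complex.I) := by
    conv_lhs => rw [ha, hb]
    rw [norm_div]
    push_cast
    rw [sub_mul, Complex.exp_sub]
    have := Complex.exp_ne_zero (s * Complex.I)
    field_simp
  have hn : (‖b / a‖ : ℂ) ≠ 0 := by
    exact_mod_cast (norm_pos_iff.2 (div_ne_zero hb0 ha0)).ne'
  have h3 : Complex.exp (((t - s : ℝ) : ℂ) * Complex.I) =
      Complex.exp (Complex.arg (b / a) * Complex.I) := by
    have h4 := h2.symm.trans h1
    exact mul_left_cancel₀ hn h4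
  rw [Complex.exp_eq_exp_iff_exists_int] at h3
  obtain ⟨n, hn⟩ := h3
  refine ⟨n, ?_⟩
  have h5 : ((t - s : ℝ) : ℂ) = ((Complex.arg (b / a) + n * (2 * Real.pi) : ℝ) : ℂ) := by
    have h6 : ((t - s : ℝ) : ℂ) * Complex.I =
        ((Complex.arg (b / a) + n * (2 * Real.pi) : ℝ) : ℂ) * Complex.I := by
      rw [hn]; push_cast; ring
    exact mul_right_cancel₀ Complex.I_ne_zero h6
  exact_mod_cast h5

/-- the turning angle is a coboundary away from the backtracking points -/
theorem coboundary {K X : Set ℂ} (hK : IsCompact K) (hc : IsPreconnected Kᶜ) (hX : IsCompact X)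
    (hXc : IsConnected X) (hXK : X ⊆ K) {f : ℂ → ℂ} (hf : ContinuousOn f K) (hfX : MapsTo f X X)
    (h0 : ∀ z ∈ K, f z ≠ z) (hB : IsPreconnected {z | z ∈ X ∧ ¬ Back f z}) :
    ∃ Θ : ℂ → ℝ, ContinuousOn Θ X ∧
      (∀ z ∈ X, f z - z = ‖f z - z‖ * Complex.exp (Θ z * Complex.I)) ∧
      ∀ z ∈ X, ¬ Back f z → turnAngle f z = Θ (f z) - Θ z := by
  have hφ : ContinuousOn (fun z => f z - z) K := hf.sub continuousOn_id
  obtain ⟨Θ, cΘ, eΘ⟩ := exists_angle hK hc hφ (fun z hz => sub_ne_zero.mpr (h0 z hz))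
  have cΘX := cΘ.mono hXK
  have cfX := hf.mono hXK
  refine ⟨Θ, cΘX, fun z hz => eΘ z (hXK hz), ?_⟩
  obtain ⟨p, hp, hp0⟩ := parallel cΘ hX hXc cfX hfX hXK
  set Y : Set ℂ := {z | z ∈ X ∧ ¬ Back f z} with hY
  have hYX : Y ⊆ X := fun z hz => hz.1
  have hn1 : ∀ z ∈ X, f z - z ≠ 0 := fun z hz => sub_ne_zero.mpr (h0 z (hXK hz))
  have hn2 : ∀ z ∈ X, f (f z) - f z ≠ 0 := fun z hz => hn1 _ (hfX hz)
  -- continuity of the turning angle on `Y`
  have cρ : ContinuousOn (fun z => (f (f z) - f z) / (f z - z)) X :=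
    ((cfX.comp cfX hfX).sub cfX).div (cfX.sub continuousOn_id) hn1
  have cτ : ContinuousOn (turnAngle f) Y := by
    intro z hz
    have h1 : ContinuousAt Complex.arg ((f (f z) - f z) / (f z - z)) :=
      Complex.continuousAt_arg (slit (hn1 z hz.1) (hn2 z hz.1) hz.2)
    exact ContinuousAt.comp_continuousWithinAt
      (f := fun z => (f (f z) - f z) / (f z - z)) h1 ((cρ.mono hYX) z hz)
  -- the integer valued difference
  have hint : ∀ z ∈ X, ∃ k : ℤ, Θ (f z) - Θ z = turnAngle f z + k * (2 * Real.pi) := by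
    intro z hz
    exact arg_div (hn1 z hz) (hn2 z hz) (eΘ z (hXK hz)) (eΘ (f z) (hXK (hfX hz)))
  have hpar : turnAngle f p = 0 ∧ p ∈ Y := by
    have e1 : f p - p = ‖f p - p‖ * Complex.exp (Θ p * Complex.I) := eΘ p (hXK hp)
    have e2 : f (f p) - f p = ‖f (f p) - f p‖ * Complex.exp (Θ (f p) * Complex.I) :=
      eΘ (f p) (hXK (hfX hp))
    rw [hp0] at e2
    have hE : Complex.exp (Θ p * Complex.I) ≠ 0 := Complex.exp_ne_zero _
    have p1 : 0 < ‖f p - p‖ := norm_pos_iff.2 (hn1 p hp)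
    have p2 : 0 < ‖f (f p) - f p‖ := norm_pos_iff.2 (hn2 p hp)
    have hq : (f (f p) - f p) / (f p - p) = ((‖f (f p) - f p‖ / ‖f p - p‖ : ℝ) : ℂ) := by
      conv_lhs => rw [e1, e2]
      push_cast
      have h1 : (‖f p - p‖ : ℂ) ≠ 0 := by exact_mod_cast p1.ne'
      field_simp
    have hτ : turnAngle f p = 0 := by
      unfold turnAngle
      rw [hq]
      exact Complex.arg_ofReal_of_nonneg (by positivity)
    refine ⟨hτ, hp, ?_⟩
    rintro ⟨r, hr, hr2⟩
    have h1 : (f (f p) - f p) / (f p - p) = ((-r : ℝ) : ℂ) := by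
      rw [hr2]
      have h2 := hn1 p hp
      rw [div_eq_iff h2]
      push_cast
      ring
    rw [h1] at hq
    have h3 : -r = ‖f (f p) - f p‖ / ‖f p - p‖ := by exact_mod_cast hq
    have h4 : 0 < ‖f (f p) - f p‖ / ‖f p - p‖ := by positivity
    linarith
  intro z hz hzb
  have hzY : z ∈ Y := ⟨hz, hzb⟩
  have cfY : ContinuousOn (fun z => Θ (f z) - Θ z - turnAngle f z) Y :=
    (((cΘX.comp cfX hfX).sub cΘX).mono hYX).sub cτ
  have hpi := Real.pi_pos
  have hval : Θ (f z) - Θ z - turnAngle f z = 0 := by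
    have hp00 : Θ (f p) - Θ p - turnAngle f p = 0 := by rw [hp0, hpar.1]; ring
    rcases lt_trichotomy (Θ (f z) - Θ z - turnAngle f z) 0 with h | h | h
    · exfalso
      obtain ⟨k, hk⟩ := hint z hz
      have hkn : k < 0 := by
        have : (k : ℝ) * (2 * Real.pi) < 0 := by linarith
        have h2 : (k : ℝ) < 0 := by
          by_contra hcon
          push Not at hcon
          have : 0 ≤ (k : ℝ) * (2 * Real.pi) := by positivity
          linarith
        exact_mod_cast h2
      have hk1 : (k : ℝ) ≤ -1 := by exact_mod_cast (by omega : k ≤ -1)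
      have h1 := hB.intermediate_value hzY hpar.2 cfY
      have hm : -Real.pi ∈ Icc (Θ (f z) - Θ z - turnAngle f z) (Θ (f p) - Θ p - turnAngle f p) := by
        rw [hp00]
        constructor
        · nlinarith
        · linarith
      obtain ⟨w, hw, hwe⟩ := h1 hm
      obtain ⟨j, hj⟩ := hint w hw.1
      have h2 : (j : ℝ) * (2 * Real.pi) = -Real.pi := by
        have : Θ (f w) - Θ w - turnAngle f w = -Real.pi := hwe
        linarith
      have h3 : (2 * j : ℝ) = -1 := by
        have : (2 * (j : ℝ)) * Real.pi = -1 * Real.pi := by linarith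
        exact mul_right_cancel₀ hpi.ne' this
      have h4 : 2 * j = -1 := by exact_mod_cast h3
      omega
    · exact h
    · exfalso
      obtain ⟨k, hk⟩ := hint z hz
      have hkn : 0 < k := by
        have : 0 < (k : ℝ) * (2 * Real.pi) := by linarith
        have h2 : 0 < (k : ℝ) := by
          by_contra hcon
          push Not at hcon
          have : (k : ℝ) * (2 * Real.pi) ≤ 0 :=
            mul_nonpos_of_nonpos_of_nonneg hcon (by positivity)
          linarith
        exact_mod_cast h2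
      have hk1 : (1 : ℝ) ≤ k := by exact_mod_cast (by omega : 1 ≤ k)
      have h1 := hB.intermediate_value hpar.2 hzY cfY
      have hm : Real.pi ∈ Icc (Θ (f p) - Θ p - turnAngle f p) (Θ (f z) - Θ z - turnAngle f z) := by
        rw [hp00]
        constructor
        · linarith
        · nlinarith
      obtain ⟨w, hw, hwe⟩ := h1 hm
      obtain ⟨j, hj⟩ := hint w hw.1
      have h2 : (j : ℝ) * (2 * Real.pi) = Real.pi := by
        have : Θ (f w) - Θ w - turnAngle f w = Real.pi := hwe
        linarith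
      have h3 : (2 * j : ℝ) = 1 := by
        have : (2 * (j : ℝ)) * Real.pi = 1 * Real.pi := by linarith
        exact mul_right_cancel₀ hpi.ne' this
      have h4 : 2 * j = 1 := by exact_mod_cast h3
      omega
  linarith

end Pool.Agent.Helper97.BK
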