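import Pool.Agent.Helper97.BK.Main

/-!
# MP_fe7296_gt: closed orbits and points of period three
-/

set_option autoImplicit false
open Set Filter Topology

namespace Pool.Agent.Helper97.BK

open Pool.Agent.Helper34.Plane

/-- if the angle function is a coboundary along an orbit segment, the sum telescopes -/
theorem telescope {X : Set ℂ} {f : ℂ → ℂ} (hfX : MapsTo f X X) {Θ : ℂ → ℝ}
    (h : ∀ z ∈ X, ¬ Back f z → turnAngle f z = Θ (f z) - Θ z) {z : ℂ} (hz : z ∈ X) (n : ℕ)
    (hn : ∀ i < n, ¬ Back f (f^[i] z)) :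
    ∑ i ∈ Finset.range n, turnAngle f (f^[i] z) = Θ (f^[n] z) - Θ z := by
  induction n with
  | zero => simp
  | succ n ih =>
    rw [Finset.sum_range_succ, ih (fun i hi => hn i (Nat.lt_succ_of_lt hi)),
      h _ ((hfX.iterate n) hz) (hn n (Nat.lt_succ_self n)), Function.iterate_succ_apply']
    ring

theorem not_back_of_im {f : ℂ → ℂ} {z : ℂ} (h1 : f z - z ≠ 0)
    (h : ((f (f z) - f z) / (f z - z)).im ≠ 0) : ¬ Back f z := by
  rintro ⟨r, hr, hr2⟩
  apply h
  have h2 : (f (f z) - f z) / (f z - z) = ((-r : ℝ) : ℂ) := by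
    rw [hr2, div_eq_iff h1]
    push_cast
    ring
  rw [h2]
  exact Complex.ofReal_im _

/-- three vectors with sum zero -/
theorem im_next {a b c : ℂ} (ha : a ≠ 0) (hb : b ≠ 0) (h : a + b + c = 0) :
    (c / b).im = (b / a).im * (Complex.normSq a / Complex.normSq b) := by
  have hc : c = -a - b := by linear_combination h
  have ha2 : Complex.normSq a ≠ 0 := by simpa [Complex.normSq_eq_zero] using ha
  have hb2 : Complex.normSq b ≠ 0 := by simpa [Complex.normSq_eq_zero] using hb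
  rw [hc, Complex.div_im, Complex.div_im]
  simp only [Complex.sub_im, Complex.sub_re, Complex.neg_im, Complex.neg_re]
  field_simp
  ring

theorem line_of_three {X : Set ℂ} {f : ℂ → ℂ} (hfX : MapsTo f X X) (h0 : ∀ z ∈ X, f z ≠ z)
    {Θ : ℂ → ℝ} (h : ∀ z ∈ X, ¬ Back f z → turnAngle f z = Θ (f z) - Θ z)
    {z : ℂ} (hz : z ∈ X) (h3 : f (f (f z)) = z) :
    ((f (f z) - f z) / (f z - z)).im = 0 := by
  by_contra hne
  have hz1 := hfX hz
  have hz2 := hfX hz1
  have n0 : f z - z ≠ 0 := sub_ne_zero.2 (h0 z hz)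
  have n1 : f (f z) - f z ≠ 0 := sub_ne_zero.2 (h0 _ hz1)
  have n2 : f (f (f z)) - f (f z) ≠ 0 := sub_ne_zero.2 (h0 _ hz2)
  have s0 : (f z - z) + (f (f z) - f z) + (f (f (f z)) - f (f z)) = 0 := by rw [h3]; ring
  have s1 : (f (f z) - f z) + (f (f (f z)) - f (f z)) + (f z - z) = 0 := by rw [h3]; ring
  have e1 := im_next n0 n1 s0
  have e2 := im_next n1 n2 s1
  have q0 : 0 < Complex.normSq (f z - z) := Complex.normSq_pos.2 n0
  have q1 : 0 < Complex.normSq (f (f z) - f z) := Complex.normSq_pos.2 n1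
  have q2 : 0 < Complex.normSq (f (f (f z)) - f (f z)) := Complex.normSq_pos.2 n2
  have hne1 : ((f (f (f z)) - f (f z)) / (f (f z) - f z)).im ≠ 0 := by
    rw [e1]; exact mul_ne_zero hne (by positivity)
  have hne2 : ((f (f (f (f z))) - f (f (f z))) / (f (f (f z)) - f (f z))).im ≠ 0 := by
    rw [h3] at e2 ⊢
    rw [e2]
    exact mul_ne_zero (by rw [h3] at hne1; exact hne1) (by rw [h3] at q2; positivity)
  have b0 := not_back_of_im n0 hne
  have b1 := not_back_of_im n1 hne1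
  have b2 := not_back_of_im n2 hne2
  have t0 := h z hz b0
  have t1 := h _ hz1 b1
  have t2 := h _ hz2 b2
  rw [h3] at t2
  have hsum : turnAngle f z + turnAngle f (f z) + turnAngle f (f (f z)) = 0 := by
    rw [t0, t1, t2]; ring
  unfold turnAngle at hsum
  rcases lt_or_gt_of_ne hne with hlt | hgt
  · have a0 : Complex.arg ((f (f z) - f z) / (f z - z)) < 0 := Complex.arg_neg_iff.2 hlt
    have i1 : ((f (f (f z)) - f (f z)) / (f (f z) - f z)).im < 0 := by
      rw [e1]; exact mul_neg_of_neg_of_pos hlt (by positivity)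
    have a1 : Complex.arg ((f (f (f z)) - f (f z)) / (f (f z) - f z)) < 0 :=
      Complex.arg_neg_iff.2 i1
    have i2 : ((f (f (f (f z))) - f (f (f z))) / (f (f (f z)) - f (f z))).im < 0 := by
      rw [h3] at e2 i1 q2 ⊢
      rw [e2]
      exact mul_neg_of_neg_of_pos i1 (by positivity)
    have a2 : Complex.arg ((f (f (f (f z))) - f (f (f z))) / (f (f (f z)) - f (f z))) < 0 :=
      Complex.arg_neg_iff.2 i2
    linarith
  · have a0 : 0 < Complex.arg ((f (f z) - f z) / (f z - z)) := by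
      have h4 : 0 ≤ Complex.arg ((f (f z) - f z) / (f z - z)) := Complex.arg_nonneg_iff.2 hgt.le
      refine lt_of_le_of_ne h4 (fun he => ?_)
      have h5 := (Complex.arg_eq_zero_iff.1 he.symm).2
      exact hne h5
    have i1 : 0 < ((f (f (f z)) - f (f z)) / (f (f z) - f z)).im := by
      rw [e1]; exact mul_pos hgt (by positivity)
    have a1 : 0 ≤ Complex.arg ((f (f (f z)) - f (f z)) / (f (f z) - f z)) :=
      Complex.arg_nonneg_iff.2 i1.le
    have i2 : 0 < ((f (f (f (f z))) - f (f (f z))) / (f (f (f z)) - f (f z))).im := by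
      rw [h3] at e2 i1 q2 ⊢
      rw [e2]
      exact mul_pos i1 (by positivity)
    have a2 : 0 ≤ Complex.arg ((f (f (f (f z))) - f (f (f z))) / (f (f (f z)) - f (f z))) :=
      Complex.arg_nonneg_iff.2 i2.le
    linarith

/-- a closed orbit without backtracking does not turn only to one side -/
theorem both_sides {X : Set ℂ} (hX : IsCompact X) {f : ℂ → ℂ} (cf : ContinuousOn f X)
    (hfX : MapsTo f X X) (h0 : ∀ z ∈ X, f z ≠ z) {Θ : ℂ → ℝ}
    (eΘ : ∀ z ∈ X, f z - z = ‖f z - z‖ * Complex.exp (Θ z * Complex.I))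
    (h : ∀ z ∈ X, ¬ Back f z → turnAngle f z = Θ (f z) - Θ z) {z : ℂ} (hz : z ∈ X) {n : ℕ}
    (hn0 : 0 < n) (hn : ∀ i < n, ¬ Back f (f^[i] z)) (hper : f^[n] z = z) (σ : ℝ)
    (hσ : σ ≠ 0) : ∃ i < n, 0 < σ * turnAngle f (f^[i] z) := by
  by_contra hcon
  push Not at hcon
  have hsum : ∑ i ∈ Finset.range n, turnAngle f (f^[i] z) = 0 := by
    rw [telescope hfX h hz n hn, hper, sub_self]
  have hsum2 : ∑ i ∈ Finset.range n, σ * turnAngle f (f^[i] z) = 0 := by
    rw [← Finset.mul_sum, hsum, mul_zero]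
  have hall : ∀ i ∈ Finset.range n, σ * turnAngle f (f^[i] z) = 0 :=
    (Finset.sum_eq_zero_iff_of_nonpos (fun i hi => hcon i (Finset.mem_range.1 hi))).1 hsum2
  have hconst : ∀ m : ℕ, Θ (f^[m] z) = Θ z := by
    intro m
    have h1 : ∀ i < n, Θ (f^[i + 1] z) = Θ (f^[i] z) := by
      intro i hi
      have h2 := hall i (Finset.mem_range.2 hi)
      have h3 : turnAngle f (f^[i] z) = 0 := by
        rcases mul_eq_zero.1 h2 with h4 | h4
        · exact absurd h4 hσ
        · exact h4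
      have h4 := h _ ((hfX.iterate i) hz) (hn i hi)
      rw [h3] at h4
      rw [Function.iterate_succ_apply']
      linarith
    have h5 : ∀ i ≤ n, Θ (f^[i] z) = Θ z := by
      intro i
      induction i with
      | zero => intro _; rfl
      | succ i ih => intro hi; rw [h1 i (by omega), ih (by omega)]
    have h6 : f^[m] z = f^[m % n] z := by
      conv_lhs => rw [← Nat.mod_add_div m n]
      rw [Function.iterate_add_apply, Function.iterate_mul]
      congr 1
      exact Function.iterate_fixed hper _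
    rw [h6]
    exact h5 _ (Nat.mod_lt _ hn0).le
  obtain ⟨w, hw, hw0⟩ := fixed_of_const_dir (ω := Complex.exp (Θ z * Complex.I)) hX cf hfX
    (Complex.norm_exp_ofReal_mul_I _) hz (fun m => by
      have h1 := eΘ (f^[m] z) ((hfX.iterate m) hz)
      rw [hconst m] at h1
      rw [Function.iterate_succ_apply']
      exact h1)
  exact h0 w hw hw0

/-- **Main theorem.** -/
theorem final {K X : Set ℂ} (hK : IsCompact K) (hc : IsPreconnected Kᶜ) (hX : IsCompact X)
    (hXc : IsConnected X) (hXK : X ⊆ K) {f : ℂ → ℂ} (hf : ContinuousOn f K) (hfX : MapsTo f X X)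
    (h0 : ∀ z ∈ K, f z ≠ z) (hB : IsPreconnected {z | z ∈ X ∧ ¬ Back f z}) :
    (∃ C : ℝ, ∀ z ∈ X, ∀ n : ℕ, (∀ i < n, ¬ Back f (f^[i] z)) →
      |∑ i ∈ Finset.range n, turnAngle f (f^[i] z)| ≤ C ∧
      (f^[n] z = z → ∑ i ∈ Finset.range n, turnAngle f (f^[i] z) = 0)) ∧
    (∀ z ∈ X, ∀ n : ℕ, 0 < n → f^[n] z = z → (∀ i < n, ¬ Back f (f^[i] z)) →
      (∃ i < n, 0 < turnAngle f (f^[i] z)) ∧ ∃ i < n, turnAngle f (f^[i] z) < 0) ∧
    ∀ z ∈ X, f (f (f z)) = z → ((f (f z) - f z) / (f z - z)).im = 0 := by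
  obtain ⟨Θ, cΘ, eΘ, hΘ⟩ := coboundary hK hc hX hXc hXK hf hfX h0 hB
  refine ⟨?_, ?_, fun z hz h3 => line_of_three hfX (fun z hz => h0 z (hXK hz)) hΘ hz h3⟩
  rotate_left
  · intro z hz n hn0 hper hn
    obtain ⟨i, hi, hi2⟩ := both_sides hX (hf.mono hXK) hfX (fun z hz => h0 z (hXK hz)) eΘ hΘ hz hn0
      hn hper 1 one_ne_zero
    obtain ⟨j, hj, hj2⟩ := both_sides hX (hf.mono hXK) hfX (fun z hz => h0 z (hXK hz)) eΘ hΘ hz hn0
      hn hper (-1) (by norm_num)
    exact ⟨⟨i, hi, by linarith⟩, ⟨j, hj, by linarith⟩⟩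
  obtain ⟨M, hM⟩ := hX.exists_bound_of_continuousOn cΘ
  refine ⟨M + M, fun z hz n hn => ⟨?_, fun hper => ?_⟩⟩
  · rw [telescope hfX hΘ hz n hn]
    have h1 := hM _ ((hfX.iterate n) hz)
    have h2 := hM z hz
    rw [Real.norm_eq_abs] at h1 h2
    exact (abs_sub _ _).trans (add_le_add h1 h2)
  · rw [telescope hfX hΘ hz n hn, hper, sub_self]

end Pool.Agent.Helper97.BK
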